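import Pool.Agent.W537.TD.E

/-!
# The relations of degree at most `δ` between the periods of a K3 surface

Let `X` be a K3 surface over the field of algebraic numbers, `T` the transcendental part of
`H^2(X)(1)` and `C` the period matrix of `T`. We consider the period matrix `β` of the sum of a Tate
twist `T(-a)` and of Tate motives `1(-e j)`: the block matrix with the blocks `(2 π i)^a C` and
`(2 π i)^(e j)`. Its name is `twisted T a e`. Examples: the period matrix `C` of `T` (`a = 0`, no
Tate motives), the period matrix of `H^2(X)` (`a = 1` and `e j = 1`), and the period matrix of the
total cohomology `H^*(X)` (`a = 1`, and `e` takes the values `0`, `1`, `2`).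

The known relations between the entries of `β` are the ones which come from the Mumford-Tate group:
the polynomials with algebraic coefficients which vanish on the orbit `β MT`, that is, at all
matrices `β exp(Y₁) ⋯ exp(Yₙ)` with the `Y_i` in the complex Lie algebra `mtLie T a e` of the
Mumford-Tate group. Grothendieck's conjecture for `X` says that there are no other relations. We
look at the relations of bounded degree. Suppose that the algebra `E` of the endomorphisms of the
Hodge structure `T` is a totally real field (for instance `ℚ`), and that the dimension `m` of `T`
over `E` is not `5`. We show for every natural number `δ`:

  `NoRelations δ`: all relations of degree at most `δ` between the entries of `β` are the known ones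

holds if and only if

  `IsTorsorUpTo δ`: the zero set `Z_δ` of all the relations of degree at most `δ` between the entries
  of `β` is a torsor: if `x`, `y`, `z` are invertible matrices in `Z_δ`, then `x y⁻¹ z` is in `Z_δ`.

So each single relation of degree at most `δ` which does not come from the Mumford-Tate group
destroys the torsor property of `Z_δ`. Moreover (if `a` and the `e j` are not all zero) Grothendieck's
conjecture `trdeg ℚ(β) = dim MT(T) + 1` holds if and only if `NoRelations δ` holds for all `δ`; here
the right side is the dimension of the Mumford-Tate group of `T(-a)` and the Tate motives.

The hypotheses are known theorems: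

* `HodgeDeRham`: Hodge classes on the powers of `T` are de Rham classes (Deligne, André);
* `Zarhin`: the Lie algebra of the Hodge group of `T` consists of the skew `E`-linear maps;
* `KugaSatake`: the de Rham-Betti classes with algebraic coefficients in the exterior powers of `T`
  are combinations of Hodge classes (Kuga-Satake construction, Deligne, André, and the theorem of
  Wüstholz);
* `Semisimple`: the de Rham-Betti realization of `T` with algebraic coefficients is semisimple;
* `SphereProperty j` for `j ≥ 3`, `j ≠ 5`: a reductive Lie algebra of skew matrices of size `j` which
  has no invariant alternating forms of degrees `0 < i < j` contains all skew matrices (Kostant).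

The proof. Let `Z_δ` be a torsor. By the Nullstellensatz it contains an invertible algebraic matrix,
and translations show that the tangent space `L` of `Z_δ` at `β` (translated to the unit matrix) is
spanned by algebraic matrices. The derivations of the polynomial ring given by the algebraic elements
of `L` do not increase the degree, and they preserve the space of the relations of degree at most
`δ`; hence `L` is a Lie algebra, defined over the algebraic numbers, which contains all logarithmic
derivatives `β⁻¹ D(β)`. By the theorem of Wüstholz and the argument with the Casimir element of degree
four it contains `mtLie`, so the relations vanish on the orbit. Conversely, if the relations of degree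
at most `δ` vanish on the orbit, then their space is stable under the derivations given by the
algebraic elements of `mtLie`. A complex polynomial of degree at most `δ` all of whose iterated
derivatives by such elements vanish at `β` is a combination of relations (descent along the derivations
of the field of complex numbers; the logarithmic derivatives lie in `mtLie`). Applied to the
translates `p(x β⁻¹ X)` of the relations this gives that `Z_δ` is closed under `x β⁻¹ z`, and a
dimension argument gives `β y⁻¹ z`.
-/

namespace Pool.Agent.Results.MP_cbf1af_ag.BoundedDegreeRelations

open Pool.Agent.W537.KT Pool.Agent.W537.DB Pool.Agent.W537.TT Pool.Agent.W537.TD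

/-- In each degree `δ` the period conjecture for a K3 surface (there are no relations of degree at most
`δ` between the periods except for the ones which come from the Mumford-Tate group) is equivalent to
the property that the zero set of the relations of degree at most `δ` is a torsor. -/
theorem result {ι : Type} [Fintype ι] [DecidableEq ι] {κ : Type} [Fintype κ] [DecidableEq κ]
    (T : K3Motive ι) (hD : T.HodgeDeRham) (hZ : T.Zarhin)
    (hKS : T.KugaSatake Qb) (hSS : T.Semisimple Qb)
    (hW : ∀ j, 3 ≤ j → j ≠ 5 → SphereProperty j)
    (P : Matrix ι ι ℚ) (hP : T.RealMultiplication P) (m : ℕ)
    (hm : Fintype.card ι = m * (minpoly ℚ P).natDegree) (h5 : m ≠ 5)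
    (a : ℤ) (e : κ → ℤ) :
    (∀ δ : ℕ, NoRelations δ (twisted T a e) (mtLie T a e) ↔ IsTorsorUpTo δ (twisted T a e)) ∧
      ((a ≠ 0 ∨ ∃ j, e j ≠ 0) →
        (Algebra.trdeg ℚ (fld (vc (twisted T a e))) =
            ((Module.finrank ℂ (mumfordTate T) + 1 : ℕ) : Cardinal) ↔
          ∀ δ : ℕ, NoRelations δ (twisted T a e) (mtLie T a e))) :=
  ⟨fun δ => degree_iff hD hZ hW hKS hSS hP hm h5 a e δ,
    fun hae => all_degrees_iff hD hZ hW hKS hSS hP hm h5 a e hae⟩

end Pool.Agent.Results.MP_cbf1af_ag.BoundedDegreeRelations
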