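import Mathlib
import Pool.Agent.W516.DRDefs
import Pool.Agent.W516.K3.Defs
import Pool.Agent.W516.K3.Link
import Pool.Agent.W516.K3.Main
import Pool.Agent.W516.K3.Main2
import Pool.Agent.W516.K3.Total
import Pool.Agent.W516.KU.Defs
import Pool.Agent.W516.KU.Defs2
import Pool.Agent.W516.KCM.Final
import Pool.Agent.W699.KCM.EFFT
import Pool.Agent.W585.KCM.PLACE

/-!
# Periods of K3 surfaces with multiplication by a CM field

Let `X` be a projective K3 surface (or a projective hyper-Kähler variety) over the field `K` of
algebraic numbers and `T` its transcendental lattice.  Assume that the algebra of the endomorphisms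
of the Hodge structure `T` is a CM field `E` of degree at least four (for imaginary quadratic fields
see `MP_77d3f5_ag.ImaginaryQuadraticKThree`) and that `dim_E T = 2m` is even and at least four.  For a
K3 surface the degree of `E` is then four; for a motive of K3 type (for example of a surface with
`h^{2,0} = 1`) it may be larger, and then we assume that `E` is abelian over `ℚ`.  We prove that all
de Rham-Betti classes in all tensor powers of `H^2(X)(1)`, that is, on the powers of `X`, are
linear combinations of products of

* the forms `b(e u, v)`, where `b` is the intersection form on `T` and `e` an element of `E`,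
* the classes of divisors.

For a K3 surface the endomorphisms `e` are algebraic (Mukai, Buskin), so all these classes are
algebraic: all the polynomial relations over the algebraic numbers between the periods of `X`
which are given by rational tensors come from algebraic cycles on the powers of `X`, as the
conjecture `trdeg F_2(X) = dim MT(H^2(X))` predicts.

In the Lean statement `T` is an `E`-vector space with its intersection form `b`, and `c` is the
complex conjugation of `E`; `ξ` is a `K`-structure on the space of the linear maps `T → ℂ`: this is
the de Rham-Betti structure on `T(1)`.  The space `k^r × T` is `H^2(X)(1)`, where `r` is the Picard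
number.  `H` is the first homology of the Kuga-Satake abelian variety, with the de Rham-Betti
structure `θ`, on which `T` acts by the Clifford multiplications `γ`.  The hypotheses `hγ` and `hdE`
are theorems of Deligne and André, `hss` and `hend` are consequences of the analytic subgroup
theorem of Wüstholz and of the theorem of Zarhin on the Hodge group of `T`: the endomorphisms of the
Kuga-Satake variety commute with the lifts to the Clifford algebra of the elements `x` of the
unitary Lie algebra of `T` over `E`.

The proof: let `g` be the Lie algebra of the real endomorphisms of `ℝ ⊗ T` that annihilate the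
de Rham-Betti classes.  It acts on the eigenspace `T_σ` of the real place `σ` of `E` where `b` is
indefinite; its image acts irreducibly, with commutant `ℂ`, is reductive and contains the real
hyperbolic parts of its elements.  A Perron-Frobenius argument gives a nonzero hyperbolic
element, which vanishes on the other eigenspaces, and the grading defined by it shows that `g`
contains the special unitary Lie algebra of `T_σ`, extended by zero, or preserves a real form of
`T_σ` up to the centre, and an explicit element of the Clifford algebra excludes this.  By
rationality `g` contains the special unitary Lie algebra of `T` over `E`.  The centre: a subspace of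
the odd part of `E`, which is defined by integral relations between the conjugates; every
nonzero Galois stable saturated lattice of such relations contains a relation with
coefficients `0`, `1`, `-1`, which gives a totally isotropic subspace of `ℂ ⊗ T` on which `g` has
trace zero, and the product of a basis of this subspace in the Clifford algebra commutes with
`g` but not with the unitary Lie algebra, in contradiction to the theorem of Wüstholz.
-/

namespace Pool.Agent.Results.MP_cbf1af_ag.CMFieldKThree

open Module TensorProduct Pool.Agent.W516.DR Pool.Agent.W516.K3 Pool.Agent.W516.KU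
  Pool.Agent.W516.KCM

/-- De Rham-Betti classes on the powers of a K3 surface with multiplication by a CM field. -/
theorem result {k K : Type} [Field k] [CharZero k] [Field K] [IsAlgClosed K] [CharZero K]
    [Algebra k K] [Algebra k ℂ] [Algebra K ℂ] [IsScalarTower k K ℂ] [Algebra k ℝ]
    [IsScalarTower k ℝ ℂ]
    -- the CM field `E` and its complex conjugation
    {E : Type} [Field E] [Algebra k E] [FiniteDimensional k E]
    (c : E →ₐ[k] E) (hc : ∀ e, c (c e) = e) (hc' : ∃ e, c e ≠ e)
    (hCM : ∀ (j : E →ₐ[k] ℂ) (e : E), j (c e) = (starRingEnd ℂ) (j e))
    (_hdeg : 2 < finrank k E)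
    (hE : (IsGalois k E ∧ ∀ g h : E ≃ₐ[k] E, g * h = h * g) ∨ finrank k E = 4)
    -- the transcendental lattice with its intersection form and its periods
    {T : Type} [AddCommGroup T] [Module k T] [FiniteDimensional k T] [Module E T]
    [IsScalarTower k E T] {m : ℕ} (hm : 2 ≤ m) (hn : finrank E T = 2 * m)
    (b : T →ₗ[k] T →ₗ[k] k) (hsym : ∀ u v, b u v = b v u) (hnd : ∀ u, (∀ v, b u v = 0) → u = 0)
    (hbE : ∀ (e : E) u v, b (e • u) v = b u (c e • v)) (hsig : SignatureTwo (bx ℝ b))
    {ι : Type} [Fintype ι] [DecidableEq ι] (ξ : Basis ι ℂ (T →ₗ[k] ℂ))
    (hdE : ∀ e : E, IsDeRhamBettiEnd K ξ (Algebra.lsmul k k T e))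
    -- the Kuga-Satake abelian variety
    {H : Type} [AddCommGroup H] [Module k H] [FiniteDimensional k H] [Nontrivial H]
    {ν : Type} [Fintype ν] [DecidableEq ν] (θ : Basis ν ℂ (H →ₗ[k] ℂ))
    (γ : T →ₗ[k] Module.End k H)
    (hcl : ∀ u v, γ u * γ v + γ v * γ u = (2 * b u v) • (1 : Module.End k H))
    (hγ : IsDRBAction K ξ θ γ)
    -- the theorem of Wüstholz
    (hss : DeRhamBettiSemisimple K θ)
    (hend : ∀ P : Module.End k H, IsDeRhamBettiEnd K θ P →
      ∀ Z ∈ Submodule.span k {Z : Module.End k H | ∃ u v, Z = sp γ u v}, ∀ x : T →ₗ[E] T,
      IsLift γ Z (x.restrictScalars k) → P * Z = Z * P)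
    -- a de Rham-Betti class in a tensor power of the second cohomology
    (r : ℕ) (hr : 0 < r) {κ : Type} [Fintype κ] [DecidableEq κ]
    (φ : MultilinearMap k (fun _ : κ => (Fin r → k) × T) k) (hφ : IsDRBForm K (perSum r ξ) φ) :
    φ ∈ Submodule.span k
      {ψ | IsMonomialB (fun e : E => b ∘ₗ (Algebra.lsmul k k T e : T →ₗ[k] T)) ψ} := by
  have : Nontrivial T := by
    have h1 : FiniteDimensional E T := FiniteDimensional.right k E T
    exact Module.nontrivial_of_finrank_pos (R := E) (by omega)
  exact drb_totalE (K := K) ξ θ b γ hcl hγ hss hend hsym hnd c hc hc' hCM hbE hdE hsig hm hn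
    Pool.Agent.W585.KCM.T_PLACE Pool.Agent.W699.KCM.T_EFFT hE r hr φ hφ

end Pool.Agent.Results.MP_cbf1af_ag.CMFieldKThree
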